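import Mathlib
import Pool.Agent.H759R2.Kad.Props6
import Pool.Agent.H85R2.Kad4.Polar

/-!
# C3: polar decomposition in a von Neumann algebra
(built on `S85.exists_polar` of helper85)
-/

open scoped ComplexOrder InnerProductSpace ComplexConjugate
open Finset

noncomputable section

namespace H759R2.Kad

universe u v

theorem prove6_polar : C_polar.{u} := by
  intro H _ _ _ M x
  -- the absolute value inside the algebra
  obtain ⟨b, hb1, hb2, hb3⟩ : ∃ b : M.toStarSubalgebra, Pos b ∧ star b = b ∧
      b * b = star x * x := by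
    letI : PartialOrder M.toStarSubalgebra := CStarAlgebra.spectralOrder _
    haveI : StarOrderedRing M.toStarSubalgebra := CStarAlgebra.spectralOrderedRing _
    refine ⟨CFC.abs x, ?_, (CFC.abs_nonneg x).isSelfAdjoint.star_eq, CFC.abs_mul_abs x⟩
    obtain ⟨y, hy⟩ := CStarAlgebra.nonneg_iff_eq_star_mul_self.mp (CFC.abs_nonneg x)
    exact ⟨y, hy⟩
  have ha : star (b : H →L[ℂ] H) = b := congrArg Subtype.val hb2
  have haa : (b : H →L[ℂ] H) * b = star (x : H →L[ℂ] H) * x := congrArg Subtype.val hb3
  obtain ⟨v, hva, hvv, hv0, huniq⟩ := S85.exists_polar (x : H →L[ℂ] H) b ha haa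
  have hvM : v ∈ M := by
    rw [← VonNeumannAlgebra.commutant_commutant M, VonNeumannAlgebra.mem_commutant_iff]
    intro y hy
    rw [VonNeumannAlgebra.mem_commutant_iff] at hy
    have h1 : (x : H →L[ℂ] H) * y = y * x := hy x x.2
    have h3 : (b : H →L[ℂ] H) * y = y * b := hy b b.2
    refine huniq _ _ ?_ ?_
    · rw [mul_assoc, hva, mul_assoc, ← h3, ← mul_assoc, hva, h1]
    · intro ζ hζ
      show y (v ζ) = v (y ζ)
      have h4 : (b : H →L[ℂ] H) (y ζ) = 0 := by
        have := congrArg (fun T : H →L[ℂ] H => T ζ) h3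
        have h5 : (b : H →L[ℂ] H) (y ζ) = y ((b : H →L[ℂ] H) ζ) := this
        rw [h5, hζ, map_zero]
      rw [hv0 ζ hζ, map_zero, hv0 _ h4]
  set w : M.toStarSubalgebra := ⟨v, hvM⟩ with hw
  have hwb : w * b = x := Subtype.ext hva
  have hww : w * star w * w = w := Subtype.ext hvv
  have hP : star (star w * w) = star w * w := by rw [star_mul, star_star]
  have hPP : star w * w * (star w * w) = star w * w := by
    calc star w * w * (star w * w) = star w * (w * star w * w) := by
          simp only [mul_assoc]
      _ = star w * w := by rw [hww]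
  have hPb : star w * w * b = b := by
    have h1 : star (b - star w * w * b) * (b - star w * w * b) = 0 := by
      have e1 : star (b - star w * w * b) = b - b * (star w * w) := by
        rw [star_sub, star_mul, hP, hb2]
      have e2 : b * (star w * w) * b = b * b := by
        calc b * (star w * w) * b = star (w * b) * (w * b) := by
              rw [star_mul, hb2]
              simp only [mul_assoc]
          _ = b * b := by rw [hwb, hb3]
      have e3 : b * (star w * w) * (star w * w * b) = b * b := by
        calc b * (star w * w) * (star w * w * b) = b * (star w * w * (star w * w)) * b := by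
              simp only [mul_assoc]
          _ = b * b := by rw [hPP, e2]
      have e4 : b * (star w * w * b) = b * b := by rw [← mul_assoc, e2]
      rw [e1, sub_mul, mul_sub, mul_sub, e2, e3, e4]
      abel
    have h2 := CStarRing.star_mul_self_eq_zero_iff _ |>.mp h1
    exact (sub_eq_zero.mp h2).symm
  refine ⟨w, b, hww, hb1, hb3, hwb.symm, hPb, ?_, ?_, ?_⟩
  · rw [← hwb, ← mul_assoc, hww]
  · intro y hy
    have hy' : (y : H →L[ℂ] H) * x = 0 := congrArg Subtype.val hy
    apply Subtype.ext
    show (y : H →L[ℂ] H) * v = 0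
    refine huniq _ _ ?_ ?_
    · rw [mul_assoc, hva, hy', zero_mul]
    · intro ζ hζ
      show (y : H →L[ℂ] H) (v ζ) = 0
      rw [hv0 ζ hζ, map_zero]
  · intro y hy
    have hy' : (x : H →L[ℂ] H) * y = 0 := congrArg Subtype.val hy
    apply Subtype.ext
    show v * (y : H →L[ℂ] H) = 0
    ext ξ
    refine hv0 _ ?_
    have h1 := S85.norm_eq_of (x : H →L[ℂ] H) b ha haa ((y : H →L[ℂ] H) ξ)
    have h2 : (x : H →L[ℂ] H) ((y : H →L[ℂ] H) ξ) = 0 :=
      congrArg (fun T : H →L[ℂ] H => T ξ) hy'
    rw [h2, norm_zero] at h1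
    exact norm_eq_zero.1 h1

end H759R2.Kad
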