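import Mathlib
import Pool.Agent.H759R2.Kad.Props7

/-!
# G6: bound for homomorphisms of C*-algebras
-/

open scoped ComplexOrder InnerProductSpace ComplexConjugate
open Finset

noncomputable section

namespace H759R2.Kad

universe u v

theorem prove7_gall (h1 : G_ext.{u, v}) (h2 : R_vn.{u, v}) (h3 : C_wst.{u}) (h4 : W_vn.{u})
    (h5 : Q_lvl.{u, v}) : G_all.{u, v} := by
  intro A _ _ _ H _ _ _ w hw c hc hwc m
  obtain ⟨K, i1, i2, i3, M, ι, hM⟩ := h1 A
  obtain ⟨w', hw'1, hw'2, hw'3⟩ := hM H w hw c (by linarith) hwc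
  letI : PartialOrder M.toStarSubalgebra := CStarAlgebra.spectralOrder _
  haveI : StarOrderedRing M.toStarSubalgebra := CStarAlgebra.spectralOrderedRing _
  have h6 : VN M.toStarSubalgebra := h4 _ (h3 K M)
  have h7 : LvlBd w' m (2592 * 6 ^ 25 * (4 * c) ^ 77) :=
    h2 M.toStarSubalgebra h6 H w' hw'1 (4 * c) (by linarith) hw'2 m
  exact h5 A M.toStarSubalgebra ι H w w' hw'3 m _ (by positivity) h7

end H759R2.Kad
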